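import Pool.Agent.W5h1.KS.Info

/-!
# The pigeonhole principle for random variables, and the inequality for vectors
-/

set_option autoImplicit false

open Finset

namespace Pool.Agent.W5h1.KS

open Pool.Agent.TH161.LW

/-- vectors -/
theorem vectors (N m : ℕ) (z : Fin N → Fin m → ℂ) (L : ℝ) (hL : ∀ i, ∑ k, ‖z i k‖ ^ 2 ≤ L)
    (hI : ∀ i j, i ≠ j → 1 ≤ |(∑ k, (starRingEnd ℂ) (z i k) * z j k).im|) :
    (N : ℝ) ≤ Real.exp (Real.pi * L) := by
  rcases Nat.eq_zero_or_pos N with h | h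
  · subst h
    rw [Nat.cast_zero]
    exact (Real.exp_pos _).le
  · have : Nonempty (Fin N) := ⟨⟨0, h⟩⟩
    have h1 := tournament (L := L) z (by
      intro i
      refine le_trans (le_of_eq ?_) (hL i)
      unfold gr
      rw [Complex.re_sum]
      apply sum_congr rfl
      intro k _
      rw [← Complex.normSq_eq_conj_mul_self, Complex.ofReal_re, Complex.normSq_eq_norm_sq]) hI
    rwa [Fintype.card_fin] at h1

/-- the difference of two counts -/
theorem BT_eq {β Ω : Type*} [Fintype Ω] (c : β → Ω → ℕ) (x y : β) :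
    BT c x y = (({ω | c x ω < c y ω} : Set Ω).ncard : ℝ) - (({ω | c y ω < c x ω} : Set Ω).ncard : ℝ) := by
  classical
  have h : ∀ u v : β, (({ω | c u ω < c v ω} : Set Ω).ncard : ℝ) =
      ∑ ω, if c u ω < c v ω then (1 : ℝ) else 0 := by
    intro u v
    have h1 : ({ω | c u ω < c v ω} : Set Ω) = ((univ.filter fun ω => c u ω < c v ω : Finset Ω) : Set Ω) := by
      ext ω
      simp
    rw [h1, Set.ncard_coe_finset, card_filter]
    push_cast
    rfl
  rw [h, h, ← sum_sub_distrib]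
  unfold BT
  apply sum_congr rfl
  intro ω _
  unfold sgn
  rcases lt_trichotomy (c x ω) (c y ω) with h1 | h1 | h1
  · rw [if_pos h1, if_pos h1, if_neg h1.not_gt, sub_zero]
  · rw [h1, if_neg (lt_irrefl _), if_neg (lt_irrefl _), if_neg (lt_irrefl _), sub_zero]
  · rw [if_neg h1.not_gt, if_pos h1, if_neg h1.not_gt, if_pos h1, zero_sub]

/-- random variables -/
theorem pigeon (Ω : Type) [Fintype Ω] [Nonempty Ω] (N J : ℕ) (X : Fin N → Ω → ℕ) (hN : 2 ≤ N)
    (hX : ∀ i ω, X i ω < 2 ^ J) : ∃ i j, i ≠ j ∧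
      Real.log N * |(({ω | X i ω < X j ω} : Set Ω).ncard : ℝ) - (({ω | X j ω < X i ω} : Set Ω).ncard : ℝ)| ≤
        Real.pi * J * Fintype.card Ω := by
  classical
  by_contra hcon
  push Not at hcon
  have hΩ : (0 : ℝ) < Fintype.card Ω := by exact_mod_cast Fintype.card_pos
  have hpi := Real.pi_pos
  have hN1 : (1 : ℝ) < N := by exact_mod_cast hN
  have hlog : 0 < Real.log N := Real.log_pos hN1
  set P : Finset (Fin N × Fin N) := univ.offDiag with hP
  have hne : P.Nonempty := by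
    refine ⟨(⟨0, by omega⟩, ⟨1, by omega⟩), ?_⟩
    rw [hP, mem_offDiag]
    refine ⟨mem_univ _, mem_univ _, ?_⟩
    intro h
    have := congrArg Fin.val h
    simp at this
  obtain ⟨p, hp, hmin⟩ := exists_min_image P (fun p => |BT X p.1 p.2|) hne
  have h1 := hcon p.1 p.2 (mem_offDiag.1 hp).2.2
  rw [← BT_eq] at h1
  set δ : ℝ := |BT X p.1 p.2| / Fintype.card Ω with hδ
  have hJ : (0 : ℝ) ≤ J := Nat.cast_nonneg J
  have hB0 : 0 < |BT X p.1 p.2| := by
    by_contra h
    have h2 : |BT X p.1 p.2| = 0 := le_antisymm (not_lt.1 h) (abs_nonneg _)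
    rw [h2, mul_zero] at h1
    have : 0 ≤ Real.pi * J * Fintype.card Ω := by positivity
    linarith
  have hδ0 : 0 < δ := by positivity
  have h2 := info_pi (Ω := Ω) (J := J) (c := X) (S := (univ : Finset (Fin N))) hδ0
    ⟨⟨0, by omega⟩, mem_univ _⟩ (fun x _ ω => hX x ω) (by
    intro x _ y _ hxy
    have h3 := hmin (x, y) (mem_offDiag.2 ⟨mem_univ _, mem_univ _, hxy⟩)
    rw [hδ, div_mul_cancel₀ _ hΩ.ne']
    exact h3)
  rw [card_univ, Fintype.card_fin] at h2
  have h4 : δ * Real.log N * Fintype.card Ω ≤ Real.pi * J * Fintype.card Ω := by gcongr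
  have h5 : δ * Real.log N * Fintype.card Ω = Real.log N * |BT X p.1 p.2| := by
    rw [hδ]; field_simp
  linarith

end Pool.Agent.W5h1.KS
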