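import Mathlib
import Pool.Agent.TH161.LW.Info3
import Pool.Agent.W5h1.KS.Hil

/-!
# Komlós' pigeonhole principle with the Hilbert inequality for tournaments

`c x`, `x ∈ S`, are random variables with values in `{0, …, 2 ^ J - 1}` on a finite probability
space. If `|P (c x < c y) - P (c y < c x)| ≥ δ` for all `x ≠ y` in `S`, then `δ log |S| ≤ π J`.
-/

set_option autoImplicit false

open Finset

namespace Pool.Agent.W5h1.KS

open Pool.Agent.TH161.LW

/-- `1` for the digit `0`, `i` for the digit `1` -/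
noncomputable def dig (u : ℕ) : ℂ := if u % 2 = 0 then 1 else Complex.I

theorem dig_im (u v : ℕ) (h : u / 2 = v / 2) : ((starRingEnd ℂ) (dig u) * dig v).im = sgn u v := by
  unfold dig sgn
  rcases Nat.mod_two_eq_zero_or_one u with h1 | h1 <;>
    rcases Nat.mod_two_eq_zero_or_one v with h2 | h2
  · rw [if_pos h1, if_pos h2, if_neg (by omega), if_neg (by omega)]
    simp
  · rw [if_pos h1, if_neg (by omega), if_pos (by omega)]
    simp
  · rw [if_neg (by omega), if_pos h2, if_neg (by omega), if_pos (by omega)]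
    simp
  · rw [if_neg (by omega), if_neg (by omega), if_neg (by omega), if_neg (by omega)]
    simp

theorem dig_norm (u : ℕ) : (starRingEnd ℂ) (dig u) * dig u = 1 := by
  unfold dig
  split_ifs
  · simp
  · simp

/-- the vector of a number with `J` digits -/
noncomputable def vec (J u : ℕ) (p : Fin J × Fin (2 ^ J)) : ℂ :=
  if u / 2 ^ (p.1 : ℕ) / 2 = (p.2 : ℕ) then dig (u / 2 ^ (p.1 : ℕ)) else 0

theorem vec_gr {J u v : ℕ} (hu : u < 2 ^ J) :
    ∑ p, (starRingEnd ℂ) (vec J u p) * vec J v p =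
      ∑ j : Fin J, if u / 2 ^ (j : ℕ) / 2 = v / 2 ^ (j : ℕ) / 2 then
        (starRingEnd ℂ) (dig (u / 2 ^ (j : ℕ))) * dig (v / 2 ^ (j : ℕ)) else 0 := by
  rw [Fintype.sum_prod_type]
  apply sum_congr rfl
  intro j _
  have hb : u / 2 ^ (j : ℕ) / 2 < 2 ^ J :=
    lt_of_le_of_lt ((Nat.div_le_self _ _).trans (Nat.div_le_self _ _)) hu
  rw [sum_eq_single (⟨u / 2 ^ (j : ℕ) / 2, hb⟩ : Fin (2 ^ J))]
  · unfold vec
    simp only [if_true]
    by_cases h : u / 2 ^ (j : ℕ) / 2 = v / 2 ^ (j : ℕ) / 2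
    · rw [if_pos h, if_pos h.symm]
    · rw [if_neg h, if_neg (fun h' => h h'.symm), mul_zero]
  · intro b _ hne
    unfold vec
    simp only
    rw [if_neg, map_zero, zero_mul]
    intro h
    apply hne
    ext
    exact h.symm
  · intro h
    exact absurd (mem_univ _) h

theorem vec_im {J u v : ℕ} (hu : u < 2 ^ J) (hv : v < 2 ^ J) :
    (∑ p, (starRingEnd ℂ) (vec J u p) * vec J v p).im = sgn u v := by
  rw [vec_gr hu, Complex.im_sum, sgn_eq J u v hu hv, ← Fin.sum_univ_eq_sum_range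
    (fun j => tdig (u / 2 ^ j) (v / 2 ^ j))]
  apply sum_congr rfl
  intro j _
  unfold tdig
  by_cases h : u / 2 ^ (j : ℕ) / 2 = v / 2 ^ (j : ℕ) / 2
  · rw [if_pos h, if_pos h, dig_im _ _ h]
  · rw [if_neg h, if_neg h, Complex.zero_im]

theorem vec_self {J u : ℕ} (hu : u < 2 ^ J) :
    ∑ p, (starRingEnd ℂ) (vec J u p) * vec J u p = J := by
  rw [vec_gr hu]
  simp [dig_norm]

variable {β Ω : Type*} [Fintype Ω]

/-- **Main lemma.** -/
theorem info_pi [Nonempty Ω] {J : ℕ} {c : β → Ω → ℕ} {δ : ℝ} (hδ : 0 < δ)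
    {S : Finset β} (hS : S.Nonempty) (hc : ∀ x ∈ S, ∀ ω, c x ω < 2 ^ J)
    (hB : ∀ x ∈ S, ∀ y ∈ S, x ≠ y → δ * Fintype.card Ω ≤ |BT c x y|) :
    δ * Real.log S.card ≤ Real.pi * J := by
  classical
  have hΩ : (0 : ℝ) < Fintype.card Ω := by exact_mod_cast Fintype.card_pos
  have hSne : Nonempty S := hS.to_subtype
  have hm : 0 < δ * (Fintype.card Ω : ℝ) := by positivity
  obtain ⟨a, ha⟩ : ∃ a : ℝ, a = Real.sqrt (1 / (δ * Fintype.card Ω)) := ⟨_, rfl⟩
  have ha2 : a * a = 1 / (δ * Fintype.card Ω) := by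
    rw [ha]; exact Real.mul_self_sqrt (by positivity)
  have hg : ∀ x y : S, gr (fun (x : S) (k : Ω × (Fin J × Fin (2 ^ J))) =>
      (a : ℂ) * vec J (c x k.1) k.2) x y = ((a * a : ℝ) : ℂ) *
        ∑ ω, ∑ p, (starRingEnd ℂ) (vec J (c x ω) p) * vec J (c y ω) p := by
    intro x y
    unfold gr
    rw [Fintype.sum_prod_type, mul_sum]
    apply sum_congr rfl
    intro ω _
    rw [mul_sum]
    apply sum_congr rfl
    intro p _
    rw [map_mul, Complex.conj_ofReal]
    push_cast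
    ring
  have h := tournament (L := J / δ) (fun (x : S) (k : Ω × (Fin J × Fin (2 ^ J))) =>
      (a : ℂ) * vec J (c x k.1) k.2) (by
    intro x
    rw [hg, Complex.re_ofReal_mul]
    have e : ∑ ω, ∑ p, (starRingEnd ℂ) (vec J (c x ω) p) * vec J (c x ω) p =
        ((Fintype.card Ω * J : ℝ) : ℂ) := by
      rw [sum_congr rfl fun ω _ => vec_self (hc x x.2 ω)]
      simp
    rw [e, Complex.ofReal_re, ha2]
    apply le_of_eq
    field_simp) (by
    intro x y hxy
    rw [hg, Complex.im_ofReal_mul, Complex.im_sum,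
      sum_congr rfl fun ω _ => vec_im (hc x x.2 ω) (hc y y.2 ω), ha2, abs_mul,
      abs_of_pos (by positivity : (0 : ℝ) < 1 / (δ * Fintype.card Ω)), one_div,
      inv_mul_eq_div, le_div_iff₀ hm, one_mul]
    exact hB x x.2 y y.2 (fun h => hxy (Subtype.ext h)))
  rw [Fintype.card_coe] at h
  have hN : (0 : ℝ) < S.card := by exact_mod_cast hS.card_pos
  have h1 : Real.log S.card ≤ Real.pi * (J / δ) := (Real.log_le_iff_le_exp hN).2 h
  calc δ * Real.log S.card ≤ δ * (Real.pi * (J / δ)) := mul_le_mul_of_nonneg_left h1 hδ.le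
    _ = Real.pi * J := by field_simp

end Pool.Agent.W5h1.KS
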